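import Pool.Agent.Helper69.TPF.St3

/-!
# Project TPF, module KNG: from the levels to the towers
-/

set_option autoImplicit false

namespace Pool.Agent.Helper26.TPF

open Pool.Agent.Helper69.TPF Pool.Agent.Helper6.TS

theorem lproj_lmap {G H : Type} [Group G] [Group H] (φ : G →* H) (n : ℕ) (x : Lq G (n + 1)) :
    lproj H n (lmap φ (n + 1) x) = lmap φ n (lproj G n x) := by
  obtain ⟨x, rfl⟩ := QuotientGroup.mk_surjective x
  rfl

theorem lmap_surj {G H : Type} [Group G] [Group H] (φ : G →* H) (hφ : Function.Surjective φ) (n : ℕ) :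
    Function.Surjective (lmap φ n) := by
  intro z
  obtain ⟨z, rfl⟩ := QuotientGroup.mk_surjective z
  obtain ⟨x, rfl⟩ := hφ z
  exact ⟨QuotientGroup.mk x, rfl⟩

theorem cKNG (kna : St_KNA) (ats : St_ATS) (atf : St_ATF) : St_KNG := by
  intro g f t hsurj hlev
  obtain ⟨y, hyc, hyg, hyr, hyk⟩ := kna g f t hlev
  obtain ⟨θ, hθ⟩ := ats g y hyc hyg hyr
  have hψ : ∀ j : Fin 3, ∃ ψ : FTower (FreeGroup (Fin g)), ∀ n i,
      ψ.aut n (QuotientGroup.mk (FreeGroup.of i)) = lmap (f j) n (y n (i, !decide (t i = j))) := by
    intro j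
    refine atf g (fun n s => lmap (f j) n (y n (s, !decide (t s = j)))) ?_ ?_
    · intro n i
      rw [lproj_lmap, hyc]
    · intro n
      have h1 : Subgroup.closure (Set.range (y n)) = ⊤ := hyg n
      have h2 : (Subgroup.closure (Set.range (y n))).map (lmap (f j) n) = ⊤ := by
        rw [h1, ← MonoidHom.range_eq_map, MonoidHom.range_eq_top]
        exact lmap_surj (f j) (hsurj j) n
      show Subgroup.closure (Set.range fun s => lmap (f j) n (y n (s, !decide (t s = j)))) = ⊤
      rw [← top_le_iff, ← h2, MonoidHom.map_closure, Subgroup.closure_le]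
      rintro _ ⟨_, ⟨⟨s, b⟩, rfl⟩, rfl⟩
      by_cases hb : b = !decide (t s = j)
      · rw [hb]
        exact Subgroup.subset_closure ⟨s, rfl⟩
      · have hb' : b = decide (t s = j) := by
          cases b <;> cases h : decide (t s = j) <;> simp_all
        rw [hb', hyk]
        exact Subgroup.one_mem _
  choose ψ hψ using hψ
  refine ⟨θ, ψ, fun j n => ?_⟩
  have hmain : ((lmap (f j) n).comp (θ.aut n).toMonoidHom) =
      ((ψ j).aut n).toMonoidHom.comp (lmap (std t j) n) := by
    apply QuotientGroup.monoidHom_ext
    apply PresentedGroup.ext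
    rintro ⟨s, b⟩
    show lmap (f j) n (θ.aut n (QuotientGroup.mk (PresentedGroup.of (s, b)))) =
      (ψ j).aut n (lmap (std t j) n (QuotientGroup.mk (PresentedGroup.of (s, b))))
    rw [hθ]
    have h1 : lmap (std t j) n (QuotientGroup.mk (PresentedGroup.of (s, b))) =
        QuotientGroup.mk (std t j (PresentedGroup.of (s, b))) := rfl
    have h0 : std t j (PresentedGroup.of (s, b)) =
        if (b = false ↔ t s = j) then FreeGroup.of s else 1 := std_gen t j (s, b)
    rw [h1, h0]
    by_cases hb : (b = false ↔ t s = j)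
    · rw [if_pos hb, hψ]
      have hb' : b = !decide (t s = j) := by
        by_cases h : t s = j
        · simp [h, hb.2 h]
        · cases b
          · exact absurd (hb.1 rfl) h
          · simp [h]
      rw [hb']
    · rw [if_neg hb]
      have hb' : b = decide (t s = j) := by
        by_cases h : t s = j
        · cases b
          · exact absurd ⟨fun _ => h, fun _ => rfl⟩ hb
          · simp [h]
        · cases b
          · simp [h]
          · exact absurd ⟨fun h' => absurd h' (by simp), fun h' => absurd h' h⟩ hb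
      rw [hb', hyk]
      have h2 : (QuotientGroup.mk (1 : FreeGroup (Fin g)) : Lq (FreeGroup (Fin g)) n) = 1 := rfl
      rw [h2, map_one]
  intro x
  exact DFunLike.congr_fun hmain x

end Pool.Agent.Helper26.TPF
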